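import Pool.Agent.J4H9.BF.Stm

/-!
# Project BF, piece (DEV): the sum of the absolute values of the deviations (helper2)
-/

set_option autoImplicit false

namespace Pool.Agent.J4H2.BF

open Polynomial Pool.Agent.H925R2 Pool.Agent.W484.AA Pool.Agent.W484.BB Pool.Agent.J4H9.BF

theorem pow_dvd_of_norm_lt (p : ℕ) [Fact p.Prime] (n : ℤ) (w : ℕ) (h : ‖(n : PadicAlgCl p)‖ < ((p : ℝ) ^ w)⁻¹) :
    (p : ℤ) ^ (w + 1) ∣ n := by
  have h1 : (n : PadicAlgCl p) = (algebraMap ℚ_[p] (PadicAlgCl p)) (n : ℚ_[p]) := by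
    simp
  rw [h1, PadicAlgCl.norm_extends] at h
  rw [← Padic.norm_int_le_pow_iff_dvd, Padic.norm_le_pow_iff_norm_lt_pow_add_one]
  refine h.trans_le (le_of_eq ?_)
  rw [← zpow_natCast, ← zpow_neg]
  congr 1
  push_cast
  ring

theorem multiset_sum_lt' (p : ℕ) [Fact p.Prime] (δ : ℝ) (hδ : 0 < δ) (M : Multiset (PadicAlgCl p)) (h : ∀ x ∈ M, ‖x‖ < δ) :
    ‖M.sum‖ < δ := by
  induction M using Multiset.induction_on with
  | empty => simpa using hδ
  | cons x M ih =>
    rw [Multiset.sum_cons]
    exact (IsUltrametricDist.norm_add_le_max _ _).trans_lt (max_lt (h x (Multiset.mem_cons_self x M))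
      (ih fun y hy => h y (Multiset.mem_cons_of_mem hy)))

theorem t_DEV : S_DEV := by
  classical
  intro p _ a g r w f M hM hint hcard hr hc h0
  have hp0 : (0 : ℝ) < (p : ℝ) := by exact_mod_cast (Fact.out : p.Prime).pos
  have hpa : (0 : ℝ) < (p : ℝ) ^ a := pow_pos hp0 _
  -- the subset with a large product
  have hδ : (0 : ℝ) < ((p : ℝ) ^ w)⁻¹ := by positivity
  obtain ⟨t, ht1, ht2, ht3⟩ : ∃ t : Multiset (PadicAlgCl p), t ≤ M ∧ t.card = r ∧ ((p : ℝ) ^ w)⁻¹ ≤ ‖t.prod‖ := by
    by_contra hno
    push Not at hno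
    apply hc
    apply pow_dvd_of_norm_lt
    have h1 : ((f.coeff (2 * g - r) : ℤ) : PadicAlgCl p) = (-1) ^ r * M.esymm r := by
      have h2 := congrArg (fun g' => g'.coeff (2 * g - r)) hM
      simp only [coeff_map, eq_intCast] at h2
      rw [h2, Multiset.prod_X_sub_C_coeff M (by omega)]
      congr 2 <;> omega
    rw [h1, norm_mul, norm_pow, norm_neg, norm_one, one_pow, one_mul]
    unfold Multiset.esymm
    apply multiset_sum_lt' p _ hδ
    intro x hx
    obtain ⟨t, ht, rfl⟩ := Multiset.mem_map.1 hx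
    obtain ⟨ht1, ht2⟩ := Multiset.mem_powersetCard.1 ht
    exact hno t ht1 ht2
  -- the product of the roots
  have hprod : ‖M.prod‖ = (((p : ℝ) ^ a)⁻¹) ^ g := by
    have h2 := congrArg (fun g => g.coeff 0) hM
    simp only [coeff_map, eq_intCast] at h2
    have h2' : M.esymm M.card = M.prod := by
      unfold Multiset.esymm
      rw [Multiset.powersetCard_self, Multiset.map_singleton, Multiset.sum_singleton]
    rw [Multiset.prod_X_sub_C_coeff M (Nat.zero_le _), Nat.sub_zero, h2', h0] at h2
    have h3 := congrArg norm h2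
    rw [norm_mul, norm_pow, norm_neg, norm_one, one_pow, one_mul] at h3
    rw [← h3]
    have h4 := norm_pow_cast p a
    push_cast at h4 ⊢
    rw [norm_pow, h4]
  have hM0 : ∀ y ∈ M, y ≠ 0 := by
    rintro y hy rfl
    rw [Multiset.prod_eq_zero hy, norm_zero] at hprod
    have : 0 < (((p : ℝ) ^ a)⁻¹) ^ g := by positivity
    linarith
  -- the sum of the deviations
  have hsum : ∀ N : Multiset (PadicAlgCl p), (∀ y ∈ N, y ≠ 0) →
      (N.map (fun y => dev p ((p : ℚ) ^ a) y)).sum =
        2 * Real.log ‖N.prod‖ + N.card * Real.log ((p : ℝ) ^ a) := by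
    intro N
    induction N using Multiset.induction_on with
    | empty => intro _; simp
    | cons y N ih =>
      intro hN
      have hy := hN y (Multiset.mem_cons_self y N)
      have hN' : ∀ z ∈ N, z ≠ 0 := fun z hz => hN z (Multiset.mem_cons_of_mem hz)
      have hNp : N.prod ≠ 0 := Multiset.prod_ne_zero fun h => hN' 0 h rfl
      rw [Multiset.map_cons, Multiset.sum_cons, ih hN', Multiset.prod_cons, norm_mul,
        Real.log_mul (norm_ne_zero_iff.2 hy) (norm_ne_zero_iff.2 hNp), Multiset.card_cons]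
      unfold dev
      rw [norm_pow_cast, Real.log_inv]
      push_cast
      ring
  have hsum0 : (M.map (fun y => dev p ((p : ℚ) ^ a) y)).sum = 0 := by
    rw [hsum M hM0, hprod, Real.log_pow, Real.log_inv, hcard]
    push_cast
    ring
  -- the elements outside `t` contribute a nonnegative amount
  have key : ∀ N : Multiset (PadicAlgCl p), 0 ≤ (N.map (fun y => |dev p ((p : ℚ) ^ a) y|)).sum +
      (N.map (fun y => dev p ((p : ℚ) ^ a) y)).sum := by
    intro N
    induction N using Multiset.induction_on with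
    | empty => simp
    | cons y N ih =>
      rw [Multiset.map_cons, Multiset.sum_cons, Multiset.map_cons, Multiset.sum_cons]
      have h2 := neg_abs_le (dev p ((p : ℚ) ^ a) y)
      linarith
  have key2 : ∀ N : Multiset (PadicAlgCl p), (N.map (fun y => dev p ((p : ℚ) ^ a) y)).sum ≤
      (N.map (fun y => |dev p ((p : ℚ) ^ a) y|)).sum := by
    intro N
    induction N using Multiset.induction_on with
    | empty => simp
    | cons y N ih =>
      rw [Multiset.map_cons, Multiset.sum_cons, Multiset.map_cons, Multiset.sum_cons]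
      have h2 := le_abs_self (dev p ((p : ℚ) ^ a) y)
      linarith
  obtain ⟨s, rfl⟩ := Multiset.le_iff_exists_add.1 ht1
  have ht0 : ∀ y ∈ t, y ≠ 0 := fun y hy => hM0 y (Multiset.mem_add.2 (Or.inl hy))
  have h5 := hsum t ht0
  have h6 : -(w * Real.log p) ≤ Real.log ‖t.prod‖ := by
    have := Real.log_le_log hδ ht3
    rwa [Real.log_inv, Real.log_pow] at this
  have h7 := key s
  have h8 := key2 t
  rw [Multiset.map_add, Multiset.sum_add] at hsum0 ⊢
  rw [ht2] at h5
  linarith

end Pool.Agent.J4H2.BF
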