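import Pool.Agent.J4H9.BF.Stm3
import Pool.Agent.J4H2.BF.Dev

/-!
# Project BF, piece (TOP): the three largest absolute values (helper2)
-/

set_option autoImplicit false

namespace Pool.Agent.J4H2.BF

open Polynomial Pool.Agent.H925R2 Pool.Agent.W484.AA Pool.Agent.W484.BB Pool.Agent.J4H9.BF

/-- a submultiset of `r` roots with a large product -/
theorem exists_sub (p : ℕ) [Fact p.Prime] (f : ℤ[X]) (M : Multiset (PadicAlgCl p))
    (hM : f.map (algebraMap ℤ (PadicAlgCl p)) = (M.map (fun a => X - C a)).prod) (n r w : ℕ) (hcard : M.card = n)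
    (hr : r ≤ n) (hc : ¬ (p : ℤ) ^ (w + 1) ∣ f.coeff (n - r)) :
    ∃ t : Multiset (PadicAlgCl p), t ≤ M ∧ t.card = r ∧ ((p : ℝ) ^ w)⁻¹ ≤ ‖t.prod‖ := by
  have hp0 : (0 : ℝ) < (p : ℝ) := by exact_mod_cast (Fact.out : p.Prime).pos
  have hδ : (0 : ℝ) < ((p : ℝ) ^ w)⁻¹ := by positivity
  by_contra hno
  push Not at hno
  apply hc
  apply pow_dvd_of_norm_lt
  have h1 : ((f.coeff (n - r) : ℤ) : PadicAlgCl p) = (-1) ^ r * M.esymm r := by
    have h2 := congrArg (fun g' => g'.coeff (n - r)) hM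
    simp only [coeff_map, eq_intCast] at h2
    rw [h2, Multiset.prod_X_sub_C_coeff M (by omega)]
    congr 2 <;> omega
  rw [h1, norm_mul, norm_pow, norm_neg, norm_one, one_pow, one_mul]
  unfold Multiset.esymm
  apply multiset_sum_lt' p _ hδ
  intro x hx
  obtain ⟨t, ht, rfl⟩ := Multiset.mem_map.1 hx
  obtain ⟨ht1, ht2⟩ := Multiset.mem_powersetCard.1 ht
  exact hno t ht1 ht2

theorem log_prod (p : ℕ) [Fact p.Prime] (t : Multiset (PadicAlgCl p)) (h : ∀ y ∈ t, y ≠ 0) :
    Real.log ‖t.prod‖ = (t.map (fun y => Real.log ‖y‖)).sum := by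
  induction t using Multiset.induction_on with
  | empty => simp
  | cons y t ih =>
    have hy := h y (Multiset.mem_cons_self y t)
    have ht : ∀ z ∈ t, z ≠ 0 := fun z hz => h z (Multiset.mem_cons_of_mem hz)
    have htp : t.prod ≠ 0 := Multiset.prod_ne_zero fun h0 => ht 0 h0 rfl
    rw [Multiset.prod_cons, norm_mul, Real.log_mul (norm_ne_zero_iff.2 hy) (norm_ne_zero_iff.2 htp), ih ht,
      Multiset.map_cons, Multiset.sum_cons]

/-- the `k` largest values -/
theorem split {α : Type} (x : α → ℝ) : ∀ (k : ℕ) (M : Multiset α), k ≤ M.card →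
    ∃ T N : Multiset α, M = T + N ∧ T.card = k ∧ ∀ y ∈ T, ∀ z ∈ N, x z ≤ x y := by
  intro k
  induction k with
  | zero => intro M _; exact ⟨0, M, by simp, by simp, by simp⟩
  | succ k ih =>
    intro M hM
    have hne : M ≠ 0 := by rintro rfl; simp at hM
    obtain ⟨y0, hy0, hmax⟩ := Multiset.exists_max_image x hne
    obtain ⟨M', rfl⟩ := Multiset.exists_cons_of_mem hy0
    rw [Multiset.card_cons] at hM
    obtain ⟨T, N, h1, h2, h3⟩ := ih M' (by omega)
    refine ⟨y0 ::ₘ T, N, by rw [h1, Multiset.cons_add], by rw [Multiset.card_cons, h2], ?_⟩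
    intro y hy z hz
    rcases Multiset.mem_cons.1 hy with rfl | hy
    · apply hmax
      rw [h1]
      exact Multiset.mem_cons_of_mem (Multiset.mem_add.2 (Or.inr hz))
    · exact h3 y hy z hz

theorem sum_max_nonneg {α : Type} (x : α → ℝ) (τ : ℝ) (M : Multiset α) : 0 ≤ (M.map (fun y => max (x y - τ) 0)).sum := by
  apply Multiset.sum_nonneg
  intro b hb
  obtain ⟨y, _, rfl⟩ := Multiset.mem_map.1 hb
  exact le_max_right _ _

theorem sub_bound {α : Type} (x : α → ℝ) (τ : ℝ) (T N t : Multiset α) (hT : ∀ y ∈ T, τ ≤ x y) (hN : ∀ z ∈ N, x z ≤ τ)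
    (ht : t ≤ T + N) : (t.map x).sum ≤ t.card * τ + ((T.map x).sum - T.card * τ) := by
  have h1 : ∀ M : Multiset α, (M.map x).sum ≤ M.card * τ + (M.map (fun y => max (x y - τ) 0)).sum := by
    intro M
    induction M using Multiset.induction_on with
    | empty => simp
    | cons y M ih =>
      rw [Multiset.map_cons, Multiset.sum_cons, Multiset.map_cons, Multiset.sum_cons, Multiset.card_cons]
      have := le_max_left (x y - τ) 0
      push_cast
      linarith
  have h2 : ∀ M : Multiset α, (∀ y ∈ M, τ ≤ x y) → (M.map (fun y => max (x y - τ) 0)).sum = (M.map x).sum - M.card * τ := by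
    intro M
    induction M using Multiset.induction_on with
    | empty => intro _; simp
    | cons y M ih =>
      intro h
      rw [Multiset.map_cons, Multiset.sum_cons, Multiset.map_cons, Multiset.sum_cons, Multiset.card_cons,
        ih fun z hz => h z (Multiset.mem_cons_of_mem hz), max_eq_left (by linarith [h y (Multiset.mem_cons_self y M)])]
      push_cast
      ring
  have h3 : ∀ M : Multiset α, (∀ y ∈ M, x y ≤ τ) → (M.map (fun y => max (x y - τ) 0)).sum = 0 := by
    intro M
    induction M using Multiset.induction_on with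
    | empty => intro _; simp
    | cons y M ih =>
      intro h
      rw [Multiset.map_cons, Multiset.sum_cons,
        ih fun z hz => h z (Multiset.mem_cons_of_mem hz), max_eq_right (by linarith [h y (Multiset.mem_cons_self y M)])]
      simp
  obtain ⟨t', ht'⟩ := Multiset.le_iff_exists_add.1 ht
  have h4 : (t.map (fun y => max (x y - τ) 0)).sum ≤ ((T + N).map (fun y => max (x y - τ) 0)).sum := by
    rw [ht', Multiset.map_add, Multiset.sum_add]
    linarith [sum_max_nonneg x τ t']
  rw [Multiset.map_add, Multiset.sum_add, h2 T hT, h3 N hN] at h4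
  linarith [h1 t]

theorem t_TOP : S_TOP := by
  classical
  intro p _ a g f M hM hM0 hcard ⟨r, s, u, v, hr, hs, hs2, hcu, hcv, hlt⟩
  have hp1 : (1 : ℝ) < (p : ℝ) := by exact_mod_cast (Fact.out : p.Prime).one_lt
  have hp0 : (0 : ℝ) < (p : ℝ) := by linarith
  have hlogp : 0 < Real.log p := Real.log_pos hp1
  obtain ⟨tr, htr1, htr2, htr3⟩ := exists_sub p f M hM (2 * g) r u hcard (by omega) hcu
  obtain ⟨ts, hts1, hts2, hts3⟩ := exists_sub p f M hM (2 * g) s v hcard (by omega) hcv
  obtain ⟨T, N, hTN, hT3, hsep⟩ := split (fun y : PadicAlgCl p => Real.log ‖y‖) 3 M (by omega)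
  have hTne : T ≠ 0 := by rintro rfl; simp at hT3
  obtain ⟨y1, hy1, hmin⟩ := Multiset.exists_min_image (fun y : PadicAlgCl p => Real.log ‖y‖) hTne
  set τ : ℝ := Real.log ‖y1‖ with hτ
  have hTτ : ∀ y ∈ T, τ ≤ Real.log ‖y‖ := fun y hy => hmin y hy
  have hNτ : ∀ z ∈ N, Real.log ‖z‖ ≤ τ := fun z hz => hsep y1 hy1 z hz
  have hle : T ≤ M := by rw [hTN]; exact Multiset.le_add_right _ _
  refine ⟨T, hle, hT3, ?_⟩
  have hlow : ∀ (w : ℕ) (t : Multiset (PadicAlgCl p)), t ≤ M → ((p : ℝ) ^ w)⁻¹ ≤ ‖t.prod‖ →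
      -(w * Real.log p) ≤ (t.map (fun y => Real.log ‖y‖)).sum := by
    intro w t ht h
    rw [← log_prod p t fun y hy => (hM0 y (Multiset.mem_of_le ht hy)).1]
    have := Real.log_le_log (by positivity) h
    rwa [Real.log_inv, Real.log_pow] at this
  have b1 := hlow u tr htr1 htr3
  have b2 := hlow v ts hts1 hts3
  have c1 := sub_bound (fun y : PadicAlgCl p => Real.log ‖y‖) τ T N tr hTτ hNτ (by rw [← hTN]; exact htr1)
  have c2 := sub_bound (fun y : PadicAlgCl p => Real.log ‖y‖) τ T N ts hTτ hNτ (by rw [← hTN]; exact hts1)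
  rw [htr2, hT3] at c1
  rw [hts2, hT3] at c2
  set Z : ℝ := (T.map (fun y => Real.log ‖y‖)).sum with hZ
  have hdev : (T.map (fun y => dev p ((p : ℚ) ^ a) y)).sum = 2 * Z + T.card * Real.log ((p : ℝ) ^ a) := by
    rw [hZ]
    clear_value τ
    clear hZ hT3 hTne hy1 hmin hTτ hsep hTN c1 c2 hle
    induction T using Multiset.induction_on with
    | empty => simp
    | cons y T ih =>
      rw [Multiset.map_cons, Multiset.sum_cons, ih, Multiset.map_cons, Multiset.sum_cons, Multiset.card_cons]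
      unfold dev
      rw [norm_pow_cast, Real.log_inv]
      push_cast
      ring
  rw [hdev, hT3, Real.log_pow]
  push_cast
  -- the arithmetic
  have hr' : (r : ℝ) < 3 := by exact_mod_cast hr
  have hs' : (3 : ℝ) ≤ s := by exact_mod_cast hs
  have hlt' : ((s : ℝ) - 3) * u + (3 - r) * v < (s - r) * a := by
    have h : (((s - 3) * u + (3 - r) * v : ℕ) : ℝ) < (((s - r) * a : ℕ) : ℝ) := by exact_mod_cast hlt
    push_cast [Nat.cast_sub hs, Nat.cast_sub hr.le, Nat.cast_sub (show r ≤ s by omega)] at h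
    exact h
  have k1 : (s - 3 : ℝ) * (-(u * Real.log p)) ≤ (s - 3) * (r * τ + (Z - (3 : ℕ) * τ)) :=
    mul_le_mul_of_nonneg_left (b1.trans c1) (by linarith)
  have k2 : (3 - r : ℝ) * (-(v * Real.log p)) ≤ (3 - r) * (s * τ + (Z - (3 : ℕ) * τ)) :=
    mul_le_mul_of_nonneg_left (b2.trans c2) (by linarith)
  push_cast at k1 k2
  have k3 : (((s : ℝ) - 3) * u + (3 - r) * v) * Real.log p < ((s - r) * a) * Real.log p :=
    mul_lt_mul_of_pos_right hlt' hlogp
  have k4 : -(((s : ℝ) - r) * a * Real.log p) < (s - r) * Z := by nlinarith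
  have k5 : -(a * Real.log p) < Z := by
    have h0 : 0 < (s : ℝ) - r := by linarith
    have : ((s : ℝ) - r) * (-(a * Real.log p)) < (s - r) * Z := by linarith
    exact lt_of_mul_lt_mul_left this h0.le
  linarith

end Pool.Agent.J4H2.BF
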